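import Pool.Agent.Q44.RZ.Lin
import Pool.Agent.Q44.RZ.Key

/-!
Degree-preserving amalgamation of real zero polynomials in two shared variables fails:
`p = 1 - x₁² - x₂² + y (1 - x₂)` and `q = 1 - x₁² - x₂² + z (1 - x₁²)` are real zero polynomials
of degree at most three with `p(x, 0) = q(x, 0)`, and no real zero polynomial of degree at most
three restricts to both of them.
-/

set_option autoImplicit false

namespace Pool.Agent.Results.MP_eea824_ag.NoAmalgam

open MvPolynomial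

/-- `f` is a real zero polynomial: if `f(c a) = 0` for a real vector `a` and a complex number
`c`, then `c` is real. -/
def RealZero {σ : Type} (f : MvPolynomial σ ℝ) : Prop :=
  ∀ (a : σ → ℝ) (c : ℂ), aeval (fun i => c * (a i : ℂ)) f = 0 → ∃ t : ℝ, c = (t : ℂ)

/-- `p(x, 0)` for a polynomial `p` in `x = (x₁, x₂)` and `y = (y₁, ..., y_m)`. -/
noncomputable def restrictX {m : ℕ} (p : MvPolynomial (Fin 2 ⊕ Fin m) ℝ) :
    MvPolynomial (Fin 2) ℝ :=
  aeval (Sum.elim X (fun _ => 0)) p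

/-- `r(x, y, 0)` for a polynomial `r` in `x`, `y` and `z`. -/
noncomputable def restrictXY {m n : ℕ} (r : MvPolynomial (Fin 2 ⊕ (Fin m ⊕ Fin n)) ℝ) :
    MvPolynomial (Fin 2 ⊕ Fin m) ℝ :=
  aeval (Sum.elim (fun i => X (Sum.inl i)) (Sum.elim (fun j => X (Sum.inr j)) (fun _ => 0))) r

/-- `r(x, 0, z)` for a polynomial `r` in `x`, `y` and `z`. -/
noncomputable def restrictXZ {m n : ℕ} (r : MvPolynomial (Fin 2 ⊕ (Fin m ⊕ Fin n)) ℝ) :
    MvPolynomial (Fin 2 ⊕ Fin n) ℝ :=
  aeval (Sum.elim (fun i => X (Sum.inl i)) (Sum.elim (fun _ => 0) (fun j => X (Sum.inr j)))) r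

/-- `r` is a real zero polynomial of total degree at most `d` with `r(x, y, 0) = p` and
`r(x, 0, z) = q`. -/
def IsAmalgam {m n : ℕ} (d : ℕ) (p : MvPolynomial (Fin 2 ⊕ Fin m) ℝ)
    (q : MvPolynomial (Fin 2 ⊕ Fin n) ℝ) (r : MvPolynomial (Fin 2 ⊕ (Fin m ⊕ Fin n)) ℝ) : Prop :=
  RealZero r ∧ r.totalDegree ≤ d ∧ restrictXY r = p ∧ restrictXZ r = q

/-- The statement in question: real zero polynomials `p(x, y)` and `q(x, z)` of total degree at
most `d` with `p(x, 0) = q(x, 0)` have a real zero amalgam of total degree at most `d`. -/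
def DegreePreservingAmalgamation : Prop :=
  ∀ (d m n : ℕ) (p : MvPolynomial (Fin 2 ⊕ Fin m) ℝ) (q : MvPolynomial (Fin 2 ⊕ Fin n) ℝ),
    RealZero p → RealZero q → p.totalDegree ≤ d → q.totalDegree ≤ d →
      restrictX p = restrictX q → ∃ r, IsAmalgam d p q r

/-- `x₁` as a variable of `p` or `q`. -/
noncomputable abbrev x₁ : MvPolynomial (Fin 2 ⊕ Fin 1) ℝ := X (Sum.inl 0)

/-- `x₂` as a variable of `p` or `q`. -/
noncomputable abbrev x₂ : MvPolynomial (Fin 2 ⊕ Fin 1) ℝ := X (Sum.inl 1)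

/-- the additional variable: `y` for `p`, and `z` for `q`. -/
noncomputable abbrev w : MvPolynomial (Fin 2 ⊕ Fin 1) ℝ := X (Sum.inr 0)

/-- `p = 1 - x₁² - x₂² + y (1 - x₂)`. -/
noncomputable def pEx : MvPolynomial (Fin 2 ⊕ Fin 1) ℝ :=
  1 - x₁ ^ 2 - x₂ ^ 2 + w * (1 - x₂)

/-- `q = 1 - x₁² - x₂² + z (1 - x₁²)`. -/
noncomputable def qEx : MvPolynomial (Fin 2 ⊕ Fin 1) ℝ :=
  1 - x₁ ^ 2 - x₂ ^ 2 + w * (1 - x₁ ^ 2)

theorem realZero_iff {σ : Type} (f : MvPolynomial σ ℝ) :
    RealZero f ↔ ∀ (a : σ → ℝ) (c : ℂ), aeval (fun i => c * (a i : ℂ)) f = 0 → c.im = 0 := by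
  unfold RealZero
  constructor
  · intro h a c hc
    obtain ⟨t, rfl⟩ := h a c hc
    simp
  · intro h a c hc
    refine ⟨c.re, ?_⟩
    apply Complex.ext
    · simp
    · simpa using h a c hc

theorem realZero_pEx : RealZero pEx := by
  rw [realZero_iff]
  intro a c hc
  simp only [pEx, map_add, map_sub, map_mul, map_pow, map_one, aeval_X] at hc
  generalize a (Sum.inl 0) = u at hc
  generalize a (Sum.inl 1) = v at hc
  generalize a (Sum.inr 0) = y at hc
  -- `(1 + c y / 2)² = c² (u² + (v + y / 2)²)`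
  have h1 : (1 + c * (y / 2 : ℝ)) ^ 2 = c ^ 2 * ((u ^ 2 + (v + y / 2) ^ 2 : ℝ) : ℂ) := by
    push_cast
    linear_combination hc
  have hs : ((Real.sqrt (u ^ 2 + (v + y / 2) ^ 2) : ℝ) : ℂ) ^ 2 =
      ((u ^ 2 + (v + y / 2) ^ 2 : ℝ) : ℂ) := by
    rw [← Complex.ofReal_pow, Real.sq_sqrt (by positivity)]
  rw [← hs, ← mul_pow] at h1
  rcases sq_eq_sq_iff_eq_or_eq_neg.mp h1 with h | h
  · have h2 : c * (((Real.sqrt (u ^ 2 + (v + y / 2) ^ 2) - y / 2 : ℝ)) : ℂ) = 1 := by
      push_cast at h ⊢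
      linear_combination -h
    have h3 := congrArg Complex.im h2
    have h4 := congrArg Complex.re h2
    rw [Complex.im_mul_ofReal] at h3
    rw [Complex.re_mul_ofReal] at h4
    simp only [Complex.one_im, Complex.one_re, mul_eq_zero] at h3 h4
    rcases h3 with h3 | h3
    · exact h3
    · rw [h3] at h4
      simp at h4
  · have h2 : c * (((-Real.sqrt (u ^ 2 + (v + y / 2) ^ 2) - y / 2 : ℝ)) : ℂ) = 1 := by
      push_cast at h ⊢
      linear_combination -h
    have h3 := congrArg Complex.im h2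
    have h4 := congrArg Complex.re h2
    rw [Complex.im_mul_ofReal] at h3
    rw [Complex.re_mul_ofReal] at h4
    simp only [Complex.one_im, Complex.one_re, mul_eq_zero] at h3 h4
    rcases h3 with h3 | h3
    · exact h3
    · rw [h3] at h4
      simp at h4

theorem realZero_qEx : RealZero qEx := by
  rw [realZero_iff]
  intro s c hc
  simp only [qEx, map_add, map_sub, map_mul, map_pow, map_one, aeval_X] at hc
  generalize s (Sum.inl 0) = u at hc
  generalize s (Sum.inl 1) = v at hc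
  generalize s (Sum.inr 0) = z at hc
  obtain ⟨a, b⟩ := c
  have h1 := congrArg Complex.re hc
  have h2 := congrArg Complex.im hc
  simp [pow_two, Complex.add_re, Complex.mul_re, Complex.mul_im, Complex.sub_re,
    Complex.sub_im] at h1 h2
  -- `P = 1 - c² u²`
  have key : b * (((1 - (a ^ 2 - b ^ 2) * u ^ 2) ^ 2 + (2 * a * b * u ^ 2) ^ 2)
      + v ^ 2 * (a ^ 2 + b ^ 2) * (1 + (a ^ 2 + b ^ 2) * u ^ 2)) = 0 := by
    linear_combination
      -(((1 - (a ^ 2 - b ^ 2) * u ^ 2) * a - (-(2 * a * b * u ^ 2)) * b)) * h2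
      + ((1 - (a ^ 2 - b ^ 2) * u ^ 2) * b + (-(2 * a * b * u ^ 2)) * a) * h1
  show b = 0
  by_contra hb
  have h3 := (mul_eq_zero.mp key).resolve_left hb
  have h4 : 0 ≤ v ^ 2 * (a ^ 2 + b ^ 2) * (1 + (a ^ 2 + b ^ 2) * u ^ 2) := by positivity
  have h5 : 1 - (a ^ 2 - b ^ 2) * u ^ 2 = 0 := by
    have : (1 - (a ^ 2 - b ^ 2) * u ^ 2) ^ 2 = 0 :=
      le_antisymm (by nlinarith [sq_nonneg (2 * a * b * u ^ 2)]) (sq_nonneg _)
    exact pow_eq_zero_iff (two_ne_zero) |>.mp this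
  have h6 : 2 * a * b * u ^ 2 = 0 := by
    have : (2 * a * b * u ^ 2) ^ 2 = 0 :=
      le_antisymm (by nlinarith [sq_nonneg (1 - (a ^ 2 - b ^ 2) * u ^ 2)]) (sq_nonneg _)
    exact pow_eq_zero_iff (two_ne_zero) |>.mp this
  have h7 : a * u ^ 2 = 0 := by
    have : b * (a * u ^ 2) = 0 := by linarith
    exact (mul_eq_zero.mp this).resolve_left hb
  have h8 : a ^ 2 * u ^ 2 = 0 := by
    have : a ^ 2 * u ^ 2 = a * (a * u ^ 2) := by ring
    rw [this, h7, mul_zero]
  have h9 : 0 ≤ b ^ 2 * u ^ 2 := by positivity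
  linarith

theorem totalDegree_X_sq_le {σ : Type} (i : σ) :
    ((X i : MvPolynomial σ ℝ) ^ 2).totalDegree ≤ 2 := by
  rw [totalDegree_X_pow]

/-- total degree of `1 - a² - b² + c * d` with variables `a`, `b`, `c` and `d` of degree at most
two. -/
theorem totalDegree_aux {σ : Type} (i j k : σ) (d : MvPolynomial σ ℝ) (hd : d.totalDegree ≤ 2) :
    (1 - (X i : MvPolynomial σ ℝ) ^ 2 - X j ^ 2 + X k * d).totalDegree ≤ 3 := by
  refine (totalDegree_add _ _).trans (max_le ?_ ?_)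
  · refine (totalDegree_sub _ _).trans (max_le ?_ ?_)
    · refine (totalDegree_sub _ _).trans (max_le ?_ ?_)
      · simp
      · exact (totalDegree_X_sq_le i).trans (by norm_num)
    · exact (totalDegree_X_sq_le j).trans (by norm_num)
  · refine (totalDegree_mul _ _).trans ?_
    rw [totalDegree_X]
    omega

theorem totalDegree_pEx : pEx.totalDegree ≤ 3 := by
  apply totalDegree_aux
  refine (totalDegree_sub _ _).trans (max_le ?_ ?_)
  · simp
  · rw [totalDegree_X]
    norm_num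

theorem totalDegree_qEx : qEx.totalDegree ≤ 3 := by
  apply totalDegree_aux
  refine (totalDegree_sub _ _).trans (max_le ?_ ?_)
  · simp
  · exact totalDegree_X_sq_le _

theorem restrictX_pEx_eq : restrictX pEx = restrictX qEx := by
  simp [restrictX, pEx, qEx]

/-- the common part of every amalgam of `pEx` and `qEx`. -/
noncomputable def base : MvPolynomial (Fin 2 ⊕ (Fin 1 ⊕ Fin 1)) ℝ :=
  1 - X (Sum.inl 0) ^ 2 - X (Sum.inl 1) ^ 2 + X (Sum.inr (Sum.inl 0)) * (1 - X (Sum.inl 1))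
    + X (Sum.inr (Sum.inr 0)) * (1 - X (Sum.inl 0) ^ 2)

theorem totalDegree_base : base.totalDegree ≤ 3 := by
  refine (totalDegree_add _ _).trans (max_le ?_ ?_)
  · apply totalDegree_aux
    refine (totalDegree_sub _ _).trans (max_le ?_ ?_)
    · simp
    · rw [totalDegree_X]
      norm_num
  · refine (totalDegree_mul _ _).trans ?_
    have h : (1 - (X (Sum.inl 0) : MvPolynomial (Fin 2 ⊕ (Fin 1 ⊕ Fin 1)) ℝ) ^ 2).totalDegree
        ≤ 2 := by
      refine (totalDegree_sub _ _).trans (max_le ?_ ?_)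
      · simp
      · exact totalDegree_X_sq_le _
    rw [totalDegree_X]
    omega

/-- setting `z = 0` factors through `r(x, y, 0)`. -/
theorem setZ_eq (r : MvPolynomial (Fin 2 ⊕ (Fin 1 ⊕ Fin 1)) ℝ) :
    aeval (fun j => if j = Sum.inr (Sum.inr 0) then
      (0 : MvPolynomial (Fin 2 ⊕ (Fin 1 ⊕ Fin 1)) ℝ) else X j) r =
    aeval (Sum.elim (fun i => X (Sum.inl i)) (fun _ => X (Sum.inr (Sum.inl 0))))
      (restrictXY r) := by
  unfold restrictXY
  rw [← AlgHom.comp_apply]
  congr 1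
  apply algHom_ext
  intro j
  rcases j with j | j | j
  · simp
  · have : j = 0 := Subsingleton.elim _ _
    subst this
    simp
  · have : j = 0 := Subsingleton.elim _ _
    subst this
    simp

/-- setting `y = 0` factors through `r(x, 0, z)`. -/
theorem setY_eq (r : MvPolynomial (Fin 2 ⊕ (Fin 1 ⊕ Fin 1)) ℝ) :
    aeval (fun j => if j = Sum.inr (Sum.inl 0) then
      (0 : MvPolynomial (Fin 2 ⊕ (Fin 1 ⊕ Fin 1)) ℝ) else X j) r =
    aeval (Sum.elim (fun i => X (Sum.inl i)) (fun _ => X (Sum.inr (Sum.inr 0))))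
      (restrictXZ r) := by
  unfold restrictXZ
  rw [← AlgHom.comp_apply]
  congr 1
  apply algHom_ext
  intro j
  rcases j with j | j | j
  · simp
  · have : j = 0 := Subsingleton.elim _ _
    subst this
    simp
  · have : j = 0 := Subsingleton.elim _ _
    subst this
    simp

/-- every amalgam of degree at most three is the common part plus `y z` times an affine linear
polynomial. -/
theorem amalgam_form (r : MvPolynomial (Fin 2 ⊕ (Fin 1 ⊕ Fin 1)) ℝ) (hd : r.totalDegree ≤ 3)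
    (hp : restrictXY r = pEx) (hq : restrictXZ r = qEx) :
    ∃ h : MvPolynomial (Fin 2 ⊕ (Fin 1 ⊕ Fin 1)) ℝ, h.totalDegree ≤ 1 ∧
      r = base + X (Sum.inr (Sum.inr 0)) * (X (Sum.inr (Sum.inl 0)) * h) := by
  classical
  obtain ⟨s, hs⟩ := Q44.RZ.X_dvd_sub (Sum.inr (Sum.inr 0)) (r - base)
  have e1 : aeval (fun j => if j = Sum.inr (Sum.inr 0) then
      (0 : MvPolynomial (Fin 2 ⊕ (Fin 1 ⊕ Fin 1)) ℝ) else X j) (r - base) = 0 := by
    rw [map_sub, setZ_eq, hp]
    simp [pEx, base]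
  rw [e1, sub_zero] at hs
  obtain ⟨h, hh⟩ := Q44.RZ.X_dvd_sub (Sum.inr (Sum.inl 0)) s
  have e2 : aeval (fun j => if j = Sum.inr (Sum.inl 0) then
      (0 : MvPolynomial (Fin 2 ⊕ (Fin 1 ⊕ Fin 1)) ℝ) else X j) (r - base) = 0 := by
    rw [map_sub, setY_eq, hq]
    simp [qEx, base]
  have e3 : aeval (fun j => if j = Sum.inr (Sum.inl 0) then
      (0 : MvPolynomial (Fin 2 ⊕ (Fin 1 ⊕ Fin 1)) ℝ) else X j) s = 0 := by
    rw [hs, map_mul, aeval_X, if_neg (by simp)] at e2
    exact (mul_eq_zero.mp e2).resolve_left (X_ne_zero _)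
  rw [e3, sub_zero] at hh
  rw [hh] at hs
  refine ⟨h, ?_, by rw [← hs]; ring⟩
  by_cases h0 : h = 0
  · subst h0
    simp
  · have h1 : (r - base).totalDegree ≤ 3 :=
      (totalDegree_sub _ _).trans (max_le hd totalDegree_base)
    rw [hs, totalDegree_mul_of_isDomain (X_ne_zero _) (mul_ne_zero (X_ne_zero _) h0),
      totalDegree_mul_of_isDomain (X_ne_zero _) h0, totalDegree_X, totalDegree_X] at h1
    omega

/-- `pEx` and `qEx` have no real zero amalgam of degree at most three. -/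
theorem no_amalgam : ¬ ∃ r : MvPolynomial (Fin 2 ⊕ (Fin 1 ⊕ Fin 1)) ℝ,
    IsAmalgam 3 pEx qEx r := by
  rintro ⟨r, hr, hd, hp, hq⟩
  rw [realZero_iff] at hr
  obtain ⟨h, hh1, hh⟩ := amalgam_form r hd hp hq
  rw [Q44.RZ.eq_affine h hh1] at hh
  generalize coeff 0 h = k0 at hh
  generalize hk : (fun i => coeff (Finsupp.single i 1) h) = k at hh
  have hh' : r = base + X (Sum.inr (Sum.inr 0)) * (X (Sum.inr (Sum.inl 0)) *
      (C k0 + ∑ i, C (k i) * X i)) := by
    rw [hh, ← hk]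
  apply Q44.RZ.no_coeffs k0 (k (Sum.inl 0)) (k (Sum.inl 1)) (k (Sum.inr (Sum.inl 0)))
    (k (Sum.inr (Sum.inr 0)))
  intro u v y z
  apply Q44.RZ.disc_nonneg
  intro c hc
  apply hr (Sum.elim ![u, v] (Sum.elim ![y] ![z])) c
  rw [hh', base]
  simp only [map_add, map_sub, map_mul, map_pow, map_one, aeval_X, aeval_C,
    Fintype.sum_sum_type, Fin.sum_univ_two, Sum.elim_inl, Sum.elim_inr,
    Matrix.cons_val_zero, Matrix.cons_val_one, Finset.univ_unique, Finset.sum_singleton,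
    Fin.default_eq_zero, Complex.coe_algebraMap]
  push_cast at hc
  linear_combination hc

/-- The degree-preserving amalgamation of real zero polynomials in two shared variables fails:
already for `d = 3` and one additional variable on each side, the real zero polynomials
`p = 1 - x₁² - x₂² + y (1 - x₂)` and `q = 1 - x₁² - x₂² + z (1 - x₁²)` have no real zero amalgam of
degree at most three. -/
theorem result :
    (RealZero pEx ∧ RealZero qEx ∧ pEx.totalDegree ≤ 3 ∧ qEx.totalDegree ≤ 3 ∧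
      restrictX pEx = restrictX qEx ∧
      ¬ ∃ r : MvPolynomial (Fin 2 ⊕ (Fin 1 ⊕ Fin 1)) ℝ, IsAmalgam 3 pEx qEx r) ∧
    ¬ DegreePreservingAmalgamation :=
  ⟨⟨realZero_pEx, realZero_qEx, totalDegree_pEx, totalDegree_qEx, restrictX_pEx_eq, no_amalgam⟩,
    fun H => no_amalgam (H 3 1 1 pEx qEx realZero_pEx realZero_qEx totalDegree_pEx
      totalDegree_qEx restrictX_pEx_eq)⟩

end Pool.Agent.Results.MP_eea824_ag.NoAmalgam
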